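import Pool.Agent.Y211.PY.Stm

set_option autoImplicit false
set_option linter.unusedSectionVars false
set_option linter.style.haveILetI false

open scoped Matrix
open IsLocalRing Pool.Agent.Y211.PY

universe u

namespace Pool.Agent.Y430.PY

section Basic

variable {R F : Type u} [CommRing R] [Field F] [Algebra R F] {k : ℕ}

theorem mem_dual {M : Submodule R (Fin k → F)} {x : Fin k → F} :
    x ∈ dual M ↔ ∀ y ∈ M, x ⬝ᵥ y ∈ (⊥ : Subalgebra R F) := Iff.rfl

theorem mem_lat {x : Fin k → F} : x ∈ lat R F k ↔ ∀ i, x i ∈ (⊥ : Subalgebra R F) := Iff.rfl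

theorem dual_anti {M N : Submodule R (Fin k → F)} (h : M ≤ N) : dual N ≤ dual M :=
  fun _ hx y hy => hx y (h hy)

theorem single_mem_lat (i : Fin k) : (Pi.single i (1 : F) : Fin k → F) ∈ lat R F k := by
  intro j
  by_cases h : j = i
  · subst h; simpa using one_mem (⊥ : Subalgebra R F)
  · rw [Pi.single_eq_of_ne h]; exact zero_mem _

theorem dual_lat : dual (lat R F k) = lat R F k := by
  apply le_antisymm
  · intro x hx i
    have := hx _ (single_mem_lat i)
    simpa using this
  · intro x hx y hy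
    exact Subalgebra.sum_mem _ fun i _ => Subalgebra.mul_mem _ (hx i) (hy i)

end Basic

section Noeth

variable {R F : Type u} [CommRing R] [IsDomain R] [IsNoetherianRing R] [Field F] [Algebra R F]
  [IsFractionRing R F] {k : ℕ}

theorem alg_inj : Function.Injective (algebraMap R F) := IsFractionRing.injective R F

/-- the standard lattice as image of `R ^ k` -/
theorem lat_eq_range : lat R F k =
    LinearMap.range ((Algebra.linearMap R F).compLeft (Fin k)) := by
  ext x
  constructor
  · intro hx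
    choose f hf using fun i => Algebra.mem_bot.mp (hx i)
    exact ⟨f, by ext i; exact hf i⟩
  · rintro ⟨f, rfl⟩ i
    exact Algebra.mem_bot.mpr ⟨f i, rfl⟩

instance lat_noeth : IsNoetherian R (lat R F k) := by
  rw [lat_eq_range]
  infer_instance

theorem noeth_of_bdd {M : Submodule R (Fin k → F)} (h : Bdd M) : IsNoetherian R M := by
  obtain ⟨d, hd, h⟩ := h
  let φ : M →ₗ[R] lat R F k := LinearMap.codRestrict (lat R F k)
    ((LinearMap.lsmul R (Fin k → F) d).comp M.subtype) (fun x => h x x.2)
  refine isNoetherian_of_injective φ ?_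
  intro x y hxy
  have h1 : d • (x : Fin k → F) = d • (y : Fin k → F) := congrArg Subtype.val hxy
  apply Subtype.ext
  have hd' : algebraMap R F d ≠ 0 := fun h0 => hd (by
    apply alg_inj (R := R) (F := F); rw [h0, map_zero])
  ext i
  have h2 := congrFun h1 i
  simp only [Pi.smul_apply, Algebra.smul_def] at h2
  exact mul_left_cancel₀ hd' h2

theorem bdd_sup_lat {M : Submodule R (Fin k → F)} (h : Bdd M) : Bdd (M ⊔ lat R F k) := by
  obtain ⟨d, hd, h⟩ := h
  refine ⟨d, hd, fun x hx => ?_⟩
  obtain ⟨y, hy, z, hz, rfl⟩ := Submodule.mem_sup.mp hx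
  rw [smul_add]
  exact add_mem (h y hy) (Submodule.smul_mem _ _ hz)

end Noeth


section Free

variable {A F : Type u} [CommRing A] [IsDomain A] [IsNoetherianRing A] [IsLocalRing A] [Field F]
  [Algebra A F] [IsFractionRing A F] {k : ℕ}

theorem quot_pid {s t : A} (hm : maximalIdeal A = Ideal.span {s, t})
    (hs : (Ideal.span {s}).IsPrime) :
    haveI := hs; IsPrincipalIdealRing (A ⧸ Ideal.span {s}) := by
  haveI := hs
  haveI : IsLocalRing (A ⧸ Ideal.span {s}) :=
    IsLocalRing.of_surjective' (Ideal.Quotient.mk (Ideal.span {s})) Ideal.Quotient.mk_surjective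
  have h5 : (maximalIdeal (A ⧸ Ideal.span {s})).IsPrincipal := by
    refine ⟨⟨Ideal.Quotient.mk _ t, ?_⟩⟩
    have h1 : (maximalIdeal A).map (Ideal.Quotient.mk (Ideal.span {s})) =
        maximalIdeal (A ⧸ Ideal.span {s}) :=
      map_maximalIdeal_of_surjective _ Ideal.Quotient.mk_surjective
    rw [← h1, hm, Ideal.map_span, Set.image_pair]
    have h2 : Ideal.Quotient.mk (Ideal.span {s}) s = 0 :=
      Ideal.Quotient.eq_zero_iff_mem.mpr (Ideal.mem_span_singleton_self s)
    rw [h2]
    exact Ideal.span_insert_zero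
  exact ((tfae_of_isNoetherianRing_of_isLocalRing_of_isDomain (A ⧸ Ideal.span {s})).out 4 0).mp h5

theorem free_of_dual {s t : A} (hm : maximalIdeal A = Ideal.span {s, t})
    (hs : (Ideal.span {s}).IsPrime) (hs0 : s ≠ 0) (P N : Submodule A (Fin k → F))
    (hN : dual P = N) (hb : Bdd N) : Module.Free A N := by
  haveI := hs
  haveI := quot_pid hm hs
  haveI : IsNoetherian A N := noeth_of_bdd hb
  haveI : Module.Finite A N := inferInstance
  haveI : Module.FinitePresentation A N := Module.finitePresentation_of_finite A N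
  have hsF : algebraMap A F s ≠ 0 := fun h0 => hs0 (by
    apply alg_inj (R := A) (F := F); rw [h0, map_zero])
  have hsm : s ∈ maximalIdeal A := by rw [hm]; exact Ideal.subset_span (by simp)
  have hjac : s ∈ (⊥ : Ideal A).jacobson := by
    rw [IsLocalRing.jacobson_eq_maximalIdeal _ bot_ne_top]; exact hsm
  have hreg : IsSMulRegular N s := by
    intro x y hxy
    have h1 : s • (x : Fin k → F) = s • (y : Fin k → F) := congrArg Subtype.val hxy
    apply Subtype.ext
    ext i
    have h2 := congrFun h1 i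
    simp only [Pi.smul_apply, Algebra.smul_def] at h2
    exact mul_left_cancel₀ hsF h2
  rw [← Module.free_quotSMulTop_iff_free A N hjac hreg]
  haveI : Module.Finite (A ⧸ Ideal.span {s}) (QuotSMulTop s N) :=
    Module.Finite.of_restrictScalars_finite A _ _
  have hkey : ∀ (a : A) (x y : N), a ∉ Ideal.span {s} → a • x = s • y → ∃ z : N, x = s • z := by
    intro a x y ha hxy
    have hxy' : a • (x : Fin k → F) = s • (y : Fin k → F) := congrArg Subtype.val hxy
    have hz : (algebraMap A F s)⁻¹ • (x : Fin k → F) ∈ N := by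
      suffices h : (algebraMap A F s)⁻¹ • (x : Fin k → F) ∈ dual P from hN ▸ h
      intro p hp
      obtain ⟨b, hb⟩ := Algebra.mem_bot.mp (hN.ge x.2 p hp)
      obtain ⟨c, hc⟩ := Algebra.mem_bot.mp (hN.ge y.2 p hp)
      have h3 : a * b = s * c := by
        apply alg_inj (R := A) (F := F)
        rw [map_mul, map_mul, hb, hc, ← Algebra.smul_def, ← Algebra.smul_def, ← smul_dotProduct,
          ← smul_dotProduct, hxy']
      have h4 : a * b ∈ Ideal.span {s} := by
        rw [h3]; exact Ideal.mul_mem_right _ _ (Ideal.mem_span_singleton_self s)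
      rcases hs.mem_or_mem h4 with h5 | h5
      · exact absurd h5 ha
      · obtain ⟨b', rfl⟩ := Ideal.mem_span_singleton'.mp h5
        rw [smul_dotProduct, ← hb, map_mul, smul_eq_mul, mul_comm, mul_assoc, mul_inv_cancel₀ hsF,
          mul_one]
        exact Algebra.mem_bot.mpr ⟨b', rfl⟩
    refine ⟨⟨_, hz⟩, Subtype.ext ?_⟩
    ext i
    change (x : Fin k → F) i = s • ((algebraMap A F s)⁻¹ • (x : Fin k → F) i)
    rw [smul_eq_mul, Algebra.smul_def, mul_inv_cancel_left₀ hsF]
  haveI : Module.IsTorsionFree (A ⧸ Ideal.span {s}) (QuotSMulTop s N) := by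
    refine ⟨fun r hr => ?_⟩
    have hr0 : r ≠ 0 := hr.ne_zero
    obtain ⟨a, rfl⟩ := Ideal.Quotient.mk_surjective r
    have ha : a ∉ Ideal.span {s} := fun h => hr0 (Ideal.Quotient.eq_zero_iff_mem.mpr h)
    rw [isSMulRegular_iff_right_eq_zero_of_smul]
    intro x hx
    obtain ⟨x, rfl⟩ := Submodule.Quotient.mk_surjective _ x
    have hx1 : (Submodule.Quotient.mk (a • x) : QuotSMulTop s N) = 0 := hx
    rw [Submodule.Quotient.mk_eq_zero] at hx1 ⊢
    obtain ⟨y, _, hy⟩ := (Submodule.mem_smul_pointwise_iff_exists _ _ _).mp hx1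
    obtain ⟨z, hz⟩ := hkey a x y ha hy.symm
    exact (Submodule.mem_smul_pointwise_iff_exists _ _ _).mpr ⟨z, trivial, hz.symm⟩
  infer_instance

theorem main {s t : A} (hm : maximalIdeal A = Ideal.span {s, t})
    (hs : (Ideal.span {s}).IsPrime) (hs0 : s ≠ 0)
    (hsq : ∀ x : Fin k → A, ∑ i, x i ^ 2 ∈ maximalIdeal A → ∀ i, x i ∈ maximalIdeal A)
    (M : Submodule A (Fin k → F)) (hb : Bdd M) (hM : dual M = M)
    (hd : dual (M ⊓ lat A F k) ≤ M ⊔ lat A F k) : M ≤ lat A F k := by
  classical
  suffices hLM : lat A F k ≤ M by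
    calc M = dual M := hM.symm
      _ ≤ dual (lat A F k) := dual_anti hLM
      _ = lat A F k := dual_lat
  by_contra hLM
  set N := M ⊔ lat A F k with hNdef
  have hN : dual (M ⊓ lat A F k) = N := by
    apply le_antisymm hd
    apply sup_le
    · conv_lhs => rw [← hM]
      exact dual_anti inf_le_left
    · conv_lhs => rw [← dual_lat]
      exact dual_anti inf_le_right
  have hbN : Bdd N := bdd_sup_lat hb
  haveI : IsNoetherian A N := noeth_of_bdd hbN
  haveI : Module.Free A N := free_of_dual hm hs hs0 _ N hN hbN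
  have hne : M.submoduleOf N ≠ ⊤ := by
    intro h
    apply hLM
    intro x hx
    have : (⟨x, (le_sup_right : lat A F k ≤ N) hx⟩ : N) ∈ M.submoduleOf N := by rw [h]; trivial
    exact this
  obtain ⟨W, hW, hMW⟩ := (eq_top_or_exists_le_coatom (M.submoduleOf N)).resolve_left hne
  have hsim : IsSimpleModule A (N ⧸ W) := isSimpleModule_iff_isCoatom.mpr hW
  obtain ⟨I, hI, ⟨e⟩⟩ := isSimpleModule_iff_quot_maximal.mp hsim
  have hIm : I = maximalIdeal A := IsLocalRing.eq_maximalIdeal hI
  subst hIm
  obtain ⟨g, hg⟩ := Module.projective_lifting_property (Submodule.mkQ (maximalIdeal A))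
    (e.toLinearMap.comp W.mkQ) (Submodule.mkQ_surjective _)
  have hgx : ∀ x : N, Ideal.Quotient.mk (maximalIdeal A) (g x) = e (W.mkQ x) := fun x =>
    congrArg (fun φ => φ x) hg
  have hW0 : ∀ x : N, x ∈ W ↔ g x ∈ maximalIdeal A := by
    intro x
    rw [← Ideal.Quotient.eq_zero_iff_mem, hgx, EmbeddingLike.map_eq_zero_iff, Submodule.mkQ_apply,
      Submodule.Quotient.mk_eq_zero]
  let E : Fin k → N := fun i => ⟨Pi.single i 1, (le_sup_right : lat A F k ≤ N) (single_mem_lat i)⟩
  let p : Fin k → F := fun i => algebraMap A F (g (E i))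
  have hpx : ∀ x : N, algebraMap A F (g x) = p ⬝ᵥ (x : Fin k → F) := by
    intro x
    obtain ⟨d, hd0, hdx⟩ := hbN
    have hdF : algebraMap A F d ≠ 0 := fun h0 => hd0 (by
      apply alg_inj (R := A) (F := F); rw [h0, map_zero])
    choose c hc using fun i => Algebra.mem_bot.mp (hdx x x.2 i)
    have h1 : d • x = ∑ i, c i • E i := by
      apply Subtype.ext
      ext j
      rw [Submodule.coe_smul, AddSubmonoidClass.coe_finsetSum, Finset.sum_apply, Pi.smul_apply]
      rw [Finset.sum_eq_single j]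
      · simp only [Submodule.coe_smul, Pi.smul_apply, E, Pi.single_eq_same]
        rw [Algebra.smul_def (c j), hc j, Pi.smul_apply, mul_one]
      · intro i _ hij
        simp only [Submodule.coe_smul, Pi.smul_apply, E]
        rw [Pi.single_eq_of_ne hij.symm, smul_zero]
      · intro h; exact absurd (Finset.mem_univ j) h
    apply mul_left_cancel₀ hdF
    rw [← map_mul, ← smul_eq_mul, ← map_smul, h1, map_sum, map_sum, ← smul_eq_mul, ← dotProduct_smul,
      dotProduct]
    apply Finset.sum_congr rfl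
    intro i _
    rw [map_smul, smul_eq_mul, map_mul, hc i, mul_comm, Pi.smul_apply, Pi.smul_apply,
      Algebra.smul_def, smul_eq_mul]
  have hpM : p ∈ M := by
    have h1 : p ∈ dual N := fun y hy => by
      rw [← hpx ⟨y, hy⟩]; exact Algebra.mem_bot.mpr ⟨_, rfl⟩
    have h2 : p ∈ dual M := dual_anti (le_sup_left : M ≤ N) h1
    rwa [hM] at h2
  have hpN : p ∈ N := (le_sup_left : M ≤ N) hpM
  have h3 : g ⟨p, hpN⟩ = ∑ i, g (E i) ^ 2 := by
    apply alg_inj (R := A) (F := F)
    rw [hpx, map_sum, dotProduct]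
    apply Finset.sum_congr rfl
    intro i _
    rw [map_pow, sq]
  have h4 : ∑ i, g (E i) ^ 2 ∈ maximalIdeal A := by
    rw [← h3, ← hW0]
    exact hMW hpM
  have h5 : ∀ i, E i ∈ W := fun i => (hW0 _).mpr (hsq _ h4 i)
  apply hW.1
  rw [eq_top_iff]
  rintro ⟨x, hx⟩ -
  obtain ⟨y, hy, z, hz, rfl⟩ := Submodule.mem_sup.mp hx
  have hy1 : (⟨y, (le_sup_left : M ≤ N) hy⟩ : N) ∈ W := hMW hy
  have hz1 : (⟨z, (le_sup_right : lat A F k ≤ N) hz⟩ : N) ∈ W := by
    choose c hc using fun i => Algebra.mem_bot.mp (hz i)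
    have h1 : (⟨z, (le_sup_right : lat A F k ≤ N) hz⟩ : N) = ∑ i, c i • E i := by
      apply Subtype.ext
      ext j
      rw [AddSubmonoidClass.coe_finsetSum, Finset.sum_apply]
      rw [Finset.sum_eq_single j]
      · simp only [Submodule.coe_smul, Pi.smul_apply, E, Pi.single_eq_same]
        rw [Algebra.smul_def (c j), hc j, mul_one]
      · intro i _ hij
        simp only [Submodule.coe_smul, Pi.smul_apply, E]
        rw [Pi.single_eq_of_ne hij.symm, smul_zero]
      · intro h; exact absurd (Finset.mem_univ j) h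
    rw [h1]
    exact W.sum_mem fun i _ => W.smul_mem _ (h5 i)
  exact W.add_mem hy1 hz1

end Free

theorem t (h : S_LOC.{u}) : S_T0L.{u} := by
  intro A F _ _ _ _ _ _ hdim hsq k M hb hM hd
  obtain ⟨s, t, hm, hs, hs0, -⟩ := h A hdim
  exact main hm hs hs0 (hsq k) M hb hM hd

end Pool.Agent.Y430.PY
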